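import Pool.Agent.Helper95.PW.Stmts

/-!
Row QH of project PW: the quadratic form and the Hamiltonian on smooth functions.
-/

set_option autoImplicit false

namespace Pool.Agent.Helper95.PW

open MeasureTheory Filter

theorem QH_dv_contDiff {n : ℕ} (k : Fin n) (i : Fin 3) {v : Cf n → ℝ}
    (hv : ContDiff ℝ (⊤ : ℕ∞) v) : ContDiff ℝ (⊤ : ℕ∞) (dv k i v) := by
  unfold dv
  have h : ContDiff ℝ (⊤ : ℕ∞) (fderiv ℝ v) := hv.fderiv_right (by simp)
  exact h.clm_apply contDiff_const

theorem QH_dv_supp {n : ℕ} (k : Fin n) (i : Fin 3) {v : Cf n → ℝ}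
    (hv : HasCompactSupport v) : HasCompactSupport (dv k i v) :=
  hv.fderiv_apply (𝕜 := ℝ) (Pi.single k (Pi.single i 1))

theorem QH_int {n : ℕ} {v w : Cf n → ℝ} (hv : Continuous v) (hv' : HasCompactSupport v)
    (hw : Continuous w) : Integrable (fun x => v x * w x) :=
  (hv.mul hw).integrable_of_hasCompactSupport hv'.mul_right

theorem st_QH (hIBP : ST_IBP) (hINT : ST_INT) : ST_QH := by
  intro n Z u v hu hv
  have hpot : ∀ (a b : Wf n), Sm a → Sm b → ∀ s,
      ∫ x, (rep x - Z * att x) * (a s x * b s x) =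
        (∫ x, rep x * (a s x * b s x)) - Z * ∫ x, att x * (a s x * b s x) := by
    intro a b ha hb s
    obtain ⟨h1, h2, -, -⟩ := hINT n (a s) (b s) (ha s).1 (ha s).2 (hb s).1 (hb s).2
    rw [← integral_const_mul, ← integral_sub h2 (h1.const_mul Z)]
    congr 1
    funext x
    ring
  refine ⟨?_, ?_⟩
  · unfold Qb ip
    rw [show (∑ k : Fin n, ∑ i : Fin 3, ∑ s : Fin n → Fin 2,
        ∫ x, dv k i (u s) x * dv k i (v s) x) =
        ∑ s : Fin n → Fin 2, ∑ k : Fin n, ∑ i : Fin 3,
        ∫ x, dv k i (u s) x * dv k i (v s) x by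
      rw [Finset.sum_comm]
      rw [show (∑ i : Fin 3, ∑ k : Fin n, ∑ s : Fin n → Fin 2,
        ∫ x, dv k i (u s) x * dv k i (v s) x) = ∑ i : Fin 3, ∑ s : Fin n → Fin 2, ∑ k : Fin n,
        ∫ x, dv k i (u s) x * dv k i (v s) x from
        Finset.sum_congr rfl fun i _ => Finset.sum_comm]
      rw [Finset.sum_comm]
      exact Finset.sum_congr rfl fun s _ => Finset.sum_comm]
    rw [← Finset.sum_add_distrib]
    refine Finset.sum_congr rfl fun s _ => ?_
    obtain ⟨h1, h2, -, -⟩ := hINT n (u s) (v s) (hu s).1 (hu s).2 (hv s).1 (hv s).2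
    have hd : ∀ k i, Integrable (fun x => dv k i (dv k i (u s)) x * v s x) := fun k i =>
      QH_int (QH_dv_contDiff k i (QH_dv_contDiff k i (hu s).1)).continuous
        (QH_dv_supp k i (QH_dv_supp k i (hu s).2)) (hv s).1.continuous
    have hn : ∀ k i, Integrable (fun x => -(dv k i (dv k i (u s)) x * v s x)) := fun k i =>
      (hd k i).neg
    have hnk : ∀ k, Integrable (fun x => ∑ i : Fin 3, -(dv k i (dv k i (u s)) x * v s x)) :=
      fun k => integrable_finsetSum _ fun i _ => hn k i
    have hibp : ∀ k i, ∫ x, dv k i (u s) x * dv k i (v s) x =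
        ∫ x, -(dv k i (dv k i (u s)) x * v s x) := by
      intro k i
      rw [integral_neg, hIBP n k i (dv k i (u s)) (v s) (QH_dv_contDiff k i (hu s).1)
        (QH_dv_supp k i (hu s).2) (hv s).1, neg_neg]
    have hsum : (∑ k : Fin n, ∑ i : Fin 3, ∫ x, dv k i (u s) x * dv k i (v s) x) =
        ∫ x, ∑ k : Fin n, ∑ i : Fin 3, -(dv k i (dv k i (u s)) x * v s x) := by
      rw [integral_finsetSum _ fun k _ => hnk k]
      refine Finset.sum_congr rfl fun k _ => ?_
      rw [integral_finsetSum _ fun i _ => hn k i]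
      exact Finset.sum_congr rfl fun i _ => hibp k i
    have hpi : Integrable (fun x => (rep x - Z * att x) * (u s x * v s x)) := by
      have := h2.sub (h1.const_mul Z)
      refine this.congr (Filter.Eventually.of_forall fun x => ?_)
      simp only [Pi.sub_apply]
      ring
    rw [hsum, ← integral_add (integrable_finsetSum _ fun k _ => hnk k) hpi]
    congr 1
    funext x
    simp only [hm, Finset.sum_neg_distrib, ← Finset.sum_mul]
    ring
  · unfold Q Qb kin pair one ip
    have e1 : (∑ k : Fin n, ∑ i : Fin 3, sq (fun s => dv k i (u s))) =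
        ∑ k : Fin n, ∑ i : Fin 3, ∑ s : Fin n → Fin 2,
          ∫ x, dv k i (u s) x * dv k i (u s) x := by
      refine Finset.sum_congr rfl fun k _ => Finset.sum_congr rfl fun i _ => ?_
      unfold sq
      refine Finset.sum_congr rfl fun s _ => ?_
      congr 1
      funext x
      ring
    have e2 : (∑ s : Fin n → Fin 2, ∫ x, (rep x - Z * att x) * (u s x * u s x)) =
        (∑ s : Fin n → Fin 2, ∫ x, rep x * u s x ^ 2) -
          Z * ∑ s : Fin n → Fin 2, ∫ x, (∑ k, 1 / nr (x k)) * u s x ^ 2 := by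
      rw [Finset.mul_sum, ← Finset.sum_sub_distrib]
      refine Finset.sum_congr rfl fun s _ => ?_
      rw [hpot u u hu hu s]
      simp only [att, pow_two]
    rw [e1, e2]
    ring

end Pool.Agent.Helper95.PW
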